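import Pool.Agent.TH794.QE.FreeE
import Pool.Agent.TH311.AN2.Eng2
import Pool.Agent.Q218.AD.Dens

/-! The free density of states in dimension two. -/

set_option autoImplicit false

open MeasureTheory Set Filter Topology

namespace Pool.Agent.Q218.AD2

open Pool.Agent.W788.BK
open Pool.Agent.TH794.LL2
open Pool.Agent.TH794.QE (bvl holS0 holS1 bvl_im bvl_low finb0 HolS GF2_im0)
open Pool.Agent.TH794.QD (GF F0 F1)
open Pool.Agent.TH311.LL2D (CH CH_ge Bu)
open Pool.Agent.W788.MFP.Four (T NN adj NN_pos card_T)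
open Pool.Agent.Q218.AD (ck ck_cont ck_int ck_bounds gL_im)

/-- the bulk energies -/
def Bs (ka : ℝ) : Set ℝ := {E | ka ≤ |E| ∧ |E| ≤ 4 - ka}

theorem Bs_closed (ka : ℝ) : IsClosed (Bs ka) := by
  have h1 : IsClosed {E : ℝ | ka ≤ |E|} := isClosed_le continuous_const continuous_abs
  have h2 : IsClosed {E : ℝ | |E| ≤ 4 - ka} := isClosed_le continuous_abs continuous_const
  exact h1.inter h2

theorem Bs_meas (ka : ℝ) : MeasurableSet (Bs ka) := (Bs_closed ka).measurableSet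

theorem Bs_sub (ka : ℝ) (h : 0 ≤ ka) : Bs ka ⊆ Icc (-4) 4 := by
  intro E hE
  have h1 := abs_le.1 (hE.2.trans (by linarith : 4 - ka ≤ 4))
  exact h1

theorem Bs_fin (ka : ℝ) (h : 0 ≤ ka) : volume (Bs ka) ≠ ⊤ := by
  refine ne_top_of_le_ne_top ?_ (measure_mono (Bs_sub ka h))
  rw [Real.volume_Icc]
  exact ENNReal.ofReal_ne_top

theorem Bs_vol (ka : ℝ) (h : 0 ≤ ka) : volume.real (Bs ka) ≤ 2 * 4 := by
  have h1 : volume.real (Bs ka) ≤ volume.real (Icc (-4 : ℝ) 4) :=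
    measureReal_mono (Bs_sub ka h) (by rw [Real.volume_Icc]; exact ENNReal.ofReal_ne_top)
  rw [Real.volume_real_Icc] at h1
  norm_num at h1 ⊢
  exact h1

/-- the non critical energies -/
def U0 : Set ℝ := {E | 0 < |E| ∧ |E| < 4}

theorem U0_meas : MeasurableSet U0 := by
  have h1 : IsOpen {E : ℝ | 0 < |E|} := isOpen_lt continuous_const continuous_abs
  have h2 : IsOpen {E : ℝ | |E| < 4} := isOpen_lt continuous_abs continuous_const
  exact (h1.inter h2).measurableSet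

theorem Bs_U0 (ka : ℝ) (h : 0 < ka) : Bs ka ⊆ U0 := fun E hE =>
  ⟨h.trans_le hE.1, hE.2.trans_lt (by linarith)⟩

/-- the density of states -/
noncomputable def R0 : ℝ → ℝ := U0.indicator fun E => (bvl (F0 2) E).im

/-- the current density -/
noncomputable def R1 : ℝ → ℝ := U0.indicator fun E => (bvl (F1 2) E).im

theorem ex_ka {E : ℝ} (hE : E ∈ U0) : ∃ n : ℕ, ∀ m : ℕ, n ≤ m → E ∈ Bs (1 / ((m : ℝ) + 1)) := by
  obtain ⟨h1, h2⟩ := hE
  obtain ⟨n, hn⟩ := exists_nat_one_div_lt (lt_min h1 (sub_pos.2 h2))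
  refine ⟨n, fun m hm => ?_⟩
  have h3 : 1 / ((m : ℝ) + 1) ≤ 1 / ((n : ℝ) + 1) := by
    apply one_div_le_one_div_of_le (by positivity)
    have : (n : ℝ) ≤ m := by exact_mod_cast hm
    linarith
  have h4 := hn.le.trans (min_le_left _ _)
  have h5 := hn.le.trans (min_le_right _ _)
  exact ⟨by linarith, by linarith⟩

theorem R0_eq {E : ℝ} (hE : E ∈ U0) : R0 E = (bvl (F0 2) E).im := indicator_of_mem hE _

theorem R1_eq {E : ℝ} (hE : E ∈ U0) : R1 E = (bvl (F1 2) E).im := indicator_of_mem hE _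

theorem inv1 (n : ℕ) : 0 < 1 / ((n : ℝ) + 1) ∧ 1 / ((n : ℝ) + 1) ≤ 1 := by
  constructor
  · positivity
  · rw [div_le_one (by positivity)]
    have : (0 : ℝ) ≤ n := Nat.cast_nonneg n
    linarith

theorem R0_nonneg (E : ℝ) : 0 ≤ R0 E := by
  unfold R0
  refine indicator_nonneg (fun E hE => ?_) E
  obtain ⟨n, hn⟩ := ex_ka hE
  have h := bvl_im _ (inv1 n).1 (inv1 n).2 E (hn n le_rfl)
  exact h.1.trans h.2

theorem R1_nonneg (E : ℝ) : 0 ≤ R1 E := by
  unfold R1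
  refine indicator_nonneg (fun E hE => ?_) E
  obtain ⟨n, hn⟩ := ex_ka hE
  exact (bvl_im _ (inv1 n).1 (inv1 n).2 E (hn n le_rfl)).1

theorem R1_pos {E : ℝ} (hE : E ∈ U0) : 0 < R1 E := by
  rw [R1_eq hE]
  obtain ⟨n, hn⟩ := ex_ka hE
  have h := bvl_low _ (inv1 n).1 (inv1 n).2 E (hn n le_rfl)
  have h2 := (inv1 n).1
  have h3 := Real.pi_pos
  exact lt_of_lt_of_le (by positivity) h

theorem R0_pos {E : ℝ} (hE : E ∈ U0) : 0 < R0 E := by
  have h1 := R1_pos hE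
  rw [R1_eq hE] at h1
  rw [R0_eq hE]
  obtain ⟨n, hn⟩ := ex_ka hE
  have h := bvl_im _ (inv1 n).1 (inv1 n).2 E (hn n le_rfl)
  exact h1.trans_le h.2

/-- continuity on the bulk -/
theorem bcont (ka : ℝ) (F : ℝ → ℂ) (h : HolS ka F) :
    ContinuousOn (fun E => (bvl F E).im) (Bs ka) := by
  intro E hE
  have h1 : ContinuousWithinAt (fun E => bvl F E) (Bs ka) E := by
    rw [ContinuousWithinAt, tendsto_iff_norm_sub_tendsto_zero]
    have hc : Continuous fun E' : ℝ => 2 * CH ka * |E' - E| ^ (1 / 8 : ℝ) := by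
      have := Real.continuous_rpow_const (show (0 : ℝ) ≤ 1 / 8 by norm_num)
      fun_prop
    have l1 := (hc.tendsto E).mono_left (nhdsWithin_le_nhds (s := Bs ka))
    have e1 : 2 * CH ka * |E - E| ^ (1 / 8 : ℝ) = 0 := by
      rw [sub_self, abs_zero, Real.zero_rpow (by norm_num), mul_zero]
    rw [e1] at l1
    refine squeeze_zero' (Filter.Eventually.of_forall fun E => norm_nonneg _) ?_ l1
    filter_upwards [self_mem_nhdsWithin] with E' hE'
    exact h.lip E' E hE' hE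
  exact (Complex.continuous_im.tendsto _).comp h1

theorem rmeas (F : ℝ → ℂ) (h : ∀ ka : ℝ, 0 < ka → ka ≤ 1 → HolS ka F) :
    Measurable (U0.indicator fun E => (bvl F E).im) := by
  have h1 : ∀ n : ℕ, Measurable ((Bs (1 / ((n : ℝ) + 1))).indicator fun E => (bvl F E).im) := by
    intro n
    have hc := bcont _ F (h _ (inv1 n).1 (inv1 n).2)
    classical
    have h2 := hc.measurable_piecewise (g := fun _ => (0 : ℝ)) continuousOn_const
      (Bs_meas (1 / ((n : ℝ) + 1)))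
    have h3 : (Bs (1 / ((n : ℝ) + 1))).piecewise (fun E => (bvl F E).im) (fun _ => (0 : ℝ)) =
        (Bs (1 / ((n : ℝ) + 1))).indicator fun E => (bvl F E).im := by
      funext E
      by_cases hE : E ∈ Bs (1 / ((n : ℝ) + 1))
      · rw [piecewise_eq_of_mem _ _ _ hE, indicator_of_mem hE]
      · rw [piecewise_eq_of_notMem _ _ _ hE, indicator_of_notMem hE]
    rw [← h3]
    exact h2
  refine measurable_of_tendsto_metrizable h1 ?_
  rw [tendsto_pi_nhds]
  intro E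
  by_cases hE : E ∈ U0
  · obtain ⟨n, hn⟩ := ex_ka hE
    refine tendsto_const_nhds.congr' ?_
    filter_upwards [eventually_ge_atTop n] with m hm
    rw [indicator_of_mem hE, indicator_of_mem (hn m hm)]
  · refine tendsto_const_nhds.congr' ?_
    filter_upwards with m
    rw [indicator_of_notMem hE, indicator_of_notMem]
    exact fun h => hE (Bs_U0 _ (inv1 m).1 h)

theorem R0_meas : Measurable R0 := rmeas _ holS0

theorem R1_meas : Measurable R1 := rmeas _ holS1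

theorem R0_bcont (ka : ℝ) (h0 : 0 < ka) (h1 : ka ≤ 1) : ContinuousOn R0 (Bs ka) :=
  (bcont ka _ (holS0 ka h0 h1)).congr fun _ hE => R0_eq (Bs_U0 ka h0 hE)

theorem R1_bcont (ka : ℝ) (h0 : 0 < ka) (h1 : ka ≤ 1) : ContinuousOn R1 (Bs ka) :=
  (bcont ka _ (holS1 ka h0 h1)).congr fun _ hE => R1_eq (Bs_U0 ka h0 hE)

theorem R0_ion (ka : ℝ) (h0 : 0 < ka) (h1 : ka ≤ 1) : IntegrableOn R0 (Bs ka) :=
  (R0_bcont ka h0 h1).integrableOn_compact
    ((isCompact_Icc (a := (-4 : ℝ)) (b := 4)).of_isClosed_subset (Bs_closed ka)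
      (Bs_sub ka h0.le))

/-- the free density of states as a limit of averages of Cauchy kernels -/
theorem dos_appr2 (ka : ℝ) (h0 : 0 < ka) (h1 : ka ≤ 1) (n : ℕ) :
    ∃ t : ℝ, 0 < t ∧ t ≤ 1 / ((n : ℝ) + 1) ∧ ∃ (L : ℕ) (_ : NeZero L), 1 / (L : ℝ) ≤ 2 * ka ∧
      ∀ E ∈ Bs ka,
      |(Fintype.card (T 2 L) : ℝ)⁻¹ * ∑ k : T 2 L, ck t (adj k) E - R0 E| ≤
        1 / ((n : ℝ) + 1) := by
  have hC := CH_ge ka
  obtain ⟨x, hx⟩ : ∃ x : ℝ, x = (2 * (2 * CH ka + 1) * ((n : ℝ) + 1))⁻¹ := ⟨_, rfl⟩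
  have hn0 : (0 : ℝ) ≤ n := Nat.cast_nonneg n
  have hn1 : (0 : ℝ) < (n : ℝ) + 1 := by positivity
  have hC0 : 0 < CH ka := by linarith
  have hx0 : 0 < x := by rw [hx]; positivity
  have hxn : x ≤ 1 / ((n : ℝ) + 1) := by
    rw [hx, one_div]
    apply inv_anti₀ hn1
    nlinarith
  have hx1 : x ≤ 1 := by
    refine hxn.trans ?_
    rw [div_le_one hn1]
    linarith
  have hCx : 2 * CH ka * x ≤ 1 / 2 * (1 / ((n : ℝ) + 1)) := by
    have e1 : x * (2 * (2 * CH ka + 1) * ((n : ℝ) + 1)) = 1 := by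
      rw [hx]
      exact inv_mul_cancel₀ (by positivity)
    rw [mul_one_div, le_div_iff₀ hn1]
    have : 0 ≤ x * (n + 1) := by positivity
    nlinarith
  obtain ⟨t, ht⟩ : ∃ t : ℝ, t = x ^ 8 := ⟨_, rfl⟩
  have ht0 : 0 < t := by rw [ht]; positivity
  have htx : t ≤ x := by
    rw [ht]
    calc x ^ 8 ≤ x ^ 1 := pow_le_pow_of_le_one hx0.le hx1 (by norm_num)
      _ = x := pow_one x
  have ht1 : t ≤ 1 := htx.trans hx1
  have ht8 : t ^ (1 / 8 : ℝ) = x := by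
    rw [ht, ← Real.rpow_natCast, ← Real.rpow_mul hx0.le]
    norm_num
  obtain ⟨L, hL⟩ : ∃ L : ℕ, L = ⌈112 * ((n : ℝ) + 1) / t ^ 2⌉₊ + ⌈1 / (2 * ka)⌉₊ + 1 := ⟨_, rfl⟩
  have hLp : 0 < L := by rw [hL]; positivity
  have hLn : NeZero L := ⟨hLp.ne'⟩
  have hLR : (0 : ℝ) < L := by exact_mod_cast hLp
  have hL2 : 112 * ((n : ℝ) + 1) / t ^ 2 ≤ L := by
    rw [hL]
    push_cast
    have h3 := Nat.le_ceil (112 * ((n : ℝ) + 1) / t ^ 2)
    have h4 : (0 : ℝ) ≤ (⌈1 / (2 * ka)⌉₊ : ℝ) := Nat.cast_nonneg _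
    linarith
  have hL3 : 1 / (2 * ka) ≤ L := by
    rw [hL]
    push_cast
    have h3 := Nat.le_ceil (1 / (2 * ka))
    have h4 : (0 : ℝ) ≤ (⌈112 * ((n : ℝ) + 1) / t ^ 2⌉₊ : ℝ) := Nat.cast_nonneg _
    linarith
  refine ⟨t, ht0, htx.trans hxn, L, hLn, ?_, fun E hE => ?_⟩
  · rw [div_le_iff₀ (by positivity)] at hL3 ⊢
    linarith
  rw [← gL_im, R0_eq (Bs_U0 ka h0 hE)]
  have a1 := finb0 (L := L) 2 t ht0 ht1 ((E : ℂ) + (t : ℂ) * Complex.I) (by simp)
  have a2 := (holS0 ka h0 h1).lim ((E : ℂ) + (t : ℂ) * Complex.I) (by simpa using (show Bu ka E from hE))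
    (by simpa using ht0) (by simpa using ht1) E hE
  rw [add_sub_cancel_left, norm_mul, Complex.norm_I, mul_one, Complex.norm_real,
    Real.norm_of_nonneg ht0.le, ht8] at a2
  have a3 : 28 * ((2 : ℕ) : ℝ) / L / t ^ 2 ≤ 1 / 2 * (1 / ((n : ℝ) + 1)) := by
    rw [div_le_iff₀ (by positivity)] at hL2
    rw [mul_one_div, div_div, div_le_div_iff₀ (by positivity) hn1]
    push_cast
    linarith
  have a4 := (Complex.abs_im_le_norm _).trans (a1.trans a3)
  have a5 := (Complex.abs_im_le_norm _).trans (a2.trans hCx)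
  rw [Complex.sub_im] at a4 a5
  rw [abs_le] at a4 a5 ⊢
  constructor
  · linarith [a4.1, a5.1]
  · linarith [a4.2, a5.2]

end Pool.Agent.Q218.AD2
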