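import Pool.Agent.Q218.AD2.Dens

/-! The mass of the free density of states in dimension two. -/

set_option autoImplicit false

open MeasureTheory Set Filter Topology

namespace Pool.Agent.Q218.AD2

open Pool.Agent.W788.BK
open Pool.Agent.TH794.LL2
open Pool.Agent.TH794.QD (lim_le)
open Pool.Agent.W788.MFP.Four (T NN adj NN_pos card_T)
open Pool.Agent.Q218.AD (ck ck_cont ck_int ck_bounds gL_im)

theorem ck_nonneg (t e E : ℝ) (ht : 0 < t) : 0 ≤ ck t e E := by
  unfold ck
  positivity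

theorem ck_up (t e ka : ℝ) (ht : 0 < t) (hka : 0 ≤ ka) (he : |e| ≤ 4) :
    ∫ E in Bs ka, ck t e E ≤ Real.pi := by
  have h1 : ∫ E in Bs ka, ck t e E ≤ ∫ E in Icc (-4 : ℝ) 4, ck t e E := by
    refine setIntegral_mono_set ((ck_cont t e ht).continuousOn.integrableOn_compact isCompact_Icc)
      (Eventually.of_forall fun E => ck_nonneg t e E ht) (Bs_sub ka hka).eventuallyLE
  rw [integral_Icc_eq_integral_Ioc, ← intervalIntegral.integral_of_le (by norm_num)] at h1
  exact h1.trans (ck_bounds t e 4 4 ht he).1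

theorem ck_lo (t e ka : ℝ) (ht : 0 < t) (hka : 0 < ka) (he : e ∈ Bs (2 * ka)) :
    2 * Real.arctan (ka / t) ≤ ∫ E in Bs ka, ck t e E := by
  have hsub : Icc (e - ka) (e + ka) ⊆ Bs ka := by
    intro E hE
    obtain ⟨h1, h2⟩ := he
    have h3 : |E - e| ≤ ka := by
      rw [abs_le]
      constructor <;> linarith [hE.1, hE.2]
    have h4 := abs_sub_abs_le_abs_sub E e
    have h5 := abs_sub_abs_le_abs_sub e E
    rw [abs_sub_comm e E] at h5
    exact ⟨by linarith, by linarith⟩
  have hint : IntegrableOn (ck t e) (Bs ka) :=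
    (ck_cont t e ht).continuousOn.integrableOn_compact
      ((isCompact_Icc (a := (-4 : ℝ)) (b := 4)).of_isClosed_subset (Bs_closed ka)
        (Bs_sub ka hka.le))
  have h1 : ∫ E in Icc (e - ka) (e + ka), ck t e E ≤ ∫ E in Bs ka, ck t e E :=
    setIntegral_mono_set hint (Eventually.of_forall fun E => ck_nonneg t e E ht)
      hsub.eventuallyLE
  rw [integral_Icc_eq_integral_Ioc, ← intervalIntegral.integral_of_le (by linarith),
    ck_int t e _ _ ht] at h1
  have e1 : (e + ka - e) / t = ka / t := by ring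
  have e2 : (e - ka - e) / t = -(ka / t) := by ring
  rw [e1, e2, Real.arctan_neg] at h1
  linarith

/-- the fraction of bad momenta -/
noncomputable def bb (ka : ℝ) : ℝ := 15300 * ka * Real.log (1 / (2 * ka)) ^ 2

theorem bb_nonneg (ka : ℝ) (h : 0 ≤ ka) : 0 ≤ bb ka := by
  unfold bb
  positivity

theorem bb_lim : Tendsto bb (𝓝[>] 0) (𝓝 0) := by
  have h1 := _root_.tendsto_log_mul_rpow_nhdsGT_zero (r := 1 / 2) (by norm_num)
  have h2 : Tendsto (fun ka : ℝ => 2 * ka) (𝓝[>] 0) (𝓝[>] 0) := by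
    refine tendsto_nhdsWithin_iff.2 ⟨?_, ?_⟩
    · have h3 : Continuous fun ka : ℝ => 2 * ka := by fun_prop
      have h4 := (h3.tendsto 0).mono_left (nhdsWithin_le_nhds (s := Ioi (0 : ℝ)))
      rwa [mul_zero] at h4
    · filter_upwards [self_mem_nhdsWithin] with ka hka
      have : (0 : ℝ) < ka := hka
      exact mul_pos two_pos this
  have h3 := ((h1.comp h2).pow 2).const_mul 7650
  rw [zero_pow (by norm_num), mul_zero] at h3
  refine h3.congr' ?_
  filter_upwards [self_mem_nhdsWithin] with ka hka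
  have hk : (0 : ℝ) < ka := hka
  unfold bb
  simp only [Function.comp]
  rw [mul_pow, ← Real.sqrt_eq_rpow, Real.sq_sqrt (by positivity), one_div, Real.log_inv]
  ring

theorem bad_count {L : ℕ} [NeZero L] (ka : ℝ) (h0 : 0 < ka) (h4 : ka ≤ 1 / 4)
    (hL : 1 / (L : ℝ) ≤ 2 * ka) [DecidablePred fun k : T 2 L => adj k ∉ Bs (2 * ka)] :
    ((Finset.univ.filter fun k : T 2 L => adj k ∉ Bs (2 * ka)).card : ℝ) ≤ bb ka * NN 2 L := by
  have key : ∀ k : T 2 L, adj k ∉ Bs (2 * ka) → (3 * ka)⁻¹ ≤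
      (JJ 0 (2 * ka) k)⁻¹ + (JJ 4 (2 * ka) k)⁻¹ + (JJ (-4) (2 * ka) k)⁻¹ := by
    intro k hk
    have hJ0 : ∀ E : ℝ, 0 < JJ E (2 * ka) k := fun E =>
      lt_of_lt_of_le (by positivity) (Pool.Agent.W788.MFP.Form.J_ge E (2 * ka) (by positivity) k)
    have hJ : ∀ E : ℝ, |adj k - E| ≤ 2 * ka → (3 * ka)⁻¹ ≤ (JJ E (2 * ka) k)⁻¹ := by
      intro E hE
      apply inv_anti₀ (hJ0 E)
      unfold JJ
      rw [Real.sqrt_le_left (by positivity)]
      have := abs_le.1 hE
      have h5 : (adj k - E) ^ 2 ≤ (2 * ka) ^ 2 := sq_le_sq' this.1 this.2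
      nlinarith
    have hp : ∀ E : ℝ, 0 < (JJ E (2 * ka) k)⁻¹ := fun E => inv_pos.2 (hJ0 E)
    have ha := Pool.Agent.W788.MFP.Form.adj_abs k
    have ha' := abs_le.1 ha
    push_cast at ha'
    unfold Bs at hk
    simp only [mem_ofPred_eq, not_and_or, not_le] at hk
    rcases hk with hk | hk
    · have := hJ 0 (by rw [sub_zero]; exact hk.le)
      linarith [hp 4, hp (-4)]
    · rcases lt_abs.1 hk with h | h
      · have := hJ 4 (by rw [abs_le]; constructor <;> linarith)
        linarith [hp 0, hp (-4)]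
      · have := hJ (-4) (by rw [abs_le]; constructor <;> linarith)
        linarith [hp 0, hp 4]
  have hs : ∀ E : ℝ, ∑ k : T 2 L, (JJ E (2 * ka) k)⁻¹ ≤
      1700 * Real.log (1 / (2 * ka)) ^ 2 * NN 2 L := fun E =>
    Pool.Agent.TH311.AN2.sumJ2 (2 * ka) hL (by linarith) E
  have h5 : ((Finset.univ.filter fun k : T 2 L => adj k ∉ Bs (2 * ka)).card : ℝ) * (3 * ka)⁻¹ ≤
      3 * (1700 * Real.log (1 / (2 * ka)) ^ 2 * NN 2 L) := by
    calc ((Finset.univ.filter fun k : T 2 L => adj k ∉ Bs (2 * ka)).card : ℝ) * (3 * ka)⁻¹ =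
          ∑ _k ∈ Finset.univ.filter fun k : T 2 L => adj k ∉ Bs (2 * ka), (3 * ka)⁻¹ := by
          rw [Finset.sum_const, nsmul_eq_mul]
      _ ≤ ∑ k ∈ Finset.univ.filter fun k : T 2 L => adj k ∉ Bs (2 * ka),
          ((JJ 0 (2 * ka) k)⁻¹ + (JJ 4 (2 * ka) k)⁻¹ + (JJ (-4) (2 * ka) k)⁻¹) :=
          Finset.sum_le_sum fun k hk => key k (Finset.mem_filter.1 hk).2
      _ ≤ ∑ k : T 2 L,
          ((JJ 0 (2 * ka) k)⁻¹ + (JJ 4 (2 * ka) k)⁻¹ + (JJ (-4) (2 * ka) k)⁻¹) := by
          refine Finset.sum_le_sum_of_subset_of_nonneg (Finset.filter_subset _ _) fun k _ _ => ?_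
          have : ∀ E : ℝ, 0 ≤ (JJ E (2 * ka) k)⁻¹ := fun E =>
            inv_nonneg.2 (Real.sqrt_nonneg _)
          linarith [this 0, this 4, this (-4)]
      _ ≤ _ := by
          rw [Finset.sum_add_distrib, Finset.sum_add_distrib]
          linarith [hs 0, hs 4, hs (-4)]
  rw [mul_inv_le_iff₀ (by positivity)] at h5
  unfold bb
  linarith

/-- the mass on the bulk -/
theorem mass_bulk (ka : ℝ) (h0 : 0 < ka) (h4 : ka ≤ 1 / 4) (hb : bb ka ≤ 1) :
    ∫ E in Bs ka, R0 E ≤ Real.pi ∧ (1 - bb ka) * Real.pi ≤ ∫ E in Bs ka, R0 E := by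
  have bd : ∀ n : ℕ, (∫ E in Bs ka, R0 E) ≤ Real.pi + 8 / ((n : ℝ) + 1) ∧
      (1 - bb ka) * (2 * Real.arctan (ka * ((n : ℝ) + 1))) - 8 * (1 / ((n : ℝ) + 1)) ≤
        ∫ E in Bs ka, R0 E := by
    intro n
    obtain ⟨t, ht, htn, L, i1, hL, hE⟩ := dos_appr2 ka h0 (by linarith) n
    have hc : 0 < (Fintype.card (T 2 L) : ℝ) := by exact_mod_cast Fintype.card_pos
    have hint : ∀ k : T 2 L, IntegrableOn (ck t (adj k)) (Bs ka) := fun k =>
      (ck_cont t (adj k) ht).continuousOn.integrableOn_compact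
        ((isCompact_Icc (a := (-4 : ℝ)) (b := 4)).of_isClosed_subset (Bs_closed ka)
          (Bs_sub ka h0.le))
    have hsi : IntegrableOn (fun E => (Fintype.card (T 2 L) : ℝ)⁻¹ * ∑ k, ck t (adj k) E)
        (Bs ka) := (integrable_finsetSum _ fun k _ => hint k).const_mul _
    have hI : ∫ E in Bs ka, ((Fintype.card (T 2 L) : ℝ)⁻¹ * ∑ k : T 2 L, ck t (adj k) E) =
        (Fintype.card (T 2 L) : ℝ)⁻¹ * ∑ k : T 2 L, ∫ E in Bs ka, ck t (adj k) E := by
      rw [integral_const_mul, integral_finsetSum]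
      intro k _
      exact hint k
    have hd : |(∫ E in Bs ka, ((Fintype.card (T 2 L) : ℝ)⁻¹ * ∑ k : T 2 L, ck t (adj k) E)) -
        ∫ E in Bs ka, R0 E| ≤ 8 * (1 / ((n : ℝ) + 1)) := by
      rw [← integral_sub hsi (R0_ion ka h0 (by linarith)), ← Real.norm_eq_abs]
      refine (norm_setIntegral_le_of_norm_le_const (C := 1 / ((n : ℝ) + 1))
        (Bs_fin ka h0.le).lt_top fun E hE' => ?_).trans ?_
      · rw [Real.norm_eq_abs]
        exact hE E hE'
      · have := Bs_vol ka h0.le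
        have h1 : (0 : ℝ) < 1 / ((n : ℝ) + 1) := (inv1 n).1
        nlinarith
    have hup : (Fintype.card (T 2 L) : ℝ)⁻¹ * ∑ k : T 2 L, ∫ E in Bs ka, ck t (adj k) E ≤
        Real.pi := by
      rw [inv_mul_le_iff₀ hc]
      calc ∑ k : T 2 L, ∫ E in Bs ka, ck t (adj k) E ≤ ∑ _k : T 2 L, Real.pi :=
            Finset.sum_le_sum fun k _ => ck_up t (adj k) ka ht h0.le (by
              have := Pool.Agent.W788.MFP.Form.adj_abs k
              push_cast at this
              linarith)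
        _ = _ := by rw [Finset.sum_const, Finset.card_univ, nsmul_eq_mul]
    have hlo : (1 - bb ka) * (2 * Real.arctan (ka / t)) ≤
        (Fintype.card (T 2 L) : ℝ)⁻¹ * ∑ k : T 2 L, ∫ E in Bs ka, ck t (adj k) E := by
      classical
      rw [le_inv_mul_iff₀ hc]
      have hbad := bad_count (L := L) ka h0 h4 hL
      have hcard := Finset.card_filter_add_card_filter_not (s := (Finset.univ : Finset (T 2 L)))
        (fun k : T 2 L => adj k ∈ Bs (2 * ka))
      have hcN : (Fintype.card (T 2 L) : ℝ) = NN 2 L := by rw [card_T]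
      have hcard' : ((Finset.univ.filter fun k : T 2 L => adj k ∈ Bs (2 * ka)).card : ℝ) +
          ((Finset.univ.filter fun k : T 2 L => adj k ∉ Bs (2 * ka)).card : ℝ) = NN 2 L := by
        rw [← hcN, ← Finset.card_univ, ← hcard]
        push_cast
        rfl
      have hat : 0 ≤ 2 * Real.arctan (ka / t) := by
        have : 0 ≤ Real.arctan (ka / t) := Real.arctan_nonneg.2 (by positivity)
        linarith
      calc (Fintype.card (T 2 L) : ℝ) * ((1 - bb ka) * (2 * Real.arctan (ka / t))) ≤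
            ((Finset.univ.filter fun k : T 2 L => adj k ∈ Bs (2 * ka)).card : ℝ) *
              (2 * Real.arctan (ka / t)) := by
            rw [← mul_assoc]
            apply mul_le_mul_of_nonneg_right _ hat
            rw [hcN]
            linarith
        _ = ∑ _k ∈ Finset.univ.filter fun k : T 2 L => adj k ∈ Bs (2 * ka),
              2 * Real.arctan (ka / t) := by rw [Finset.sum_const, nsmul_eq_mul]
        _ ≤ ∑ k ∈ Finset.univ.filter fun k : T 2 L => adj k ∈ Bs (2 * ka),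
              ∫ E in Bs ka, ck t (adj k) E :=
            Finset.sum_le_sum fun k hk => ck_lo t (adj k) ka ht h0 (Finset.mem_filter.1 hk).2
        _ ≤ _ := by
            refine Finset.sum_le_sum_of_subset_of_nonneg (Finset.filter_subset _ _) fun k _ _ => ?_
            exact integral_nonneg fun E => ck_nonneg t _ E ht
    have hat : (1 - bb ka) * (2 * Real.arctan (ka * ((n : ℝ) + 1))) ≤
        (1 - bb ka) * (2 * Real.arctan (ka / t)) := by
      apply mul_le_mul_of_nonneg_left _ (by linarith)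
      apply mul_le_mul_of_nonneg_left _ (by norm_num)
      apply Real.arctan_mono
      rw [div_eq_mul_inv]
      apply mul_le_mul_of_nonneg_left _ h0.le
      have := inv_anti₀ ht htn
      rw [one_div, inv_inv] at this
      exact this
    rw [hI, abs_le] at hd
    have e1 : 8 / ((n : ℝ) + 1) = 8 * (1 / ((n : ℝ) + 1)) := by ring
    rw [e1]
    constructor
    · linarith [hd.1]
    · linarith [hd.2]
  constructor
  · exact lim_le _ _ 8 fun n => (bd n).1
  · have l0 : Tendsto (fun n : ℕ => 8 * (1 / ((n : ℝ) + 1))) atTop (𝓝 0) := by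
      have := (tendsto_one_div_add_atTop_nhds_zero_nat (𝕜 := ℝ)).const_mul (8 : ℝ)
      rwa [mul_zero] at this
    have l2 : Tendsto (fun n : ℕ => (1 - bb ka) * (2 * Real.arctan (ka * ((n : ℝ) + 1))) -
        8 * (1 / ((n : ℝ) + 1))) atTop (𝓝 ((1 - bb ka) * (2 * (Real.pi / 2)) - 0)) := by
      refine Tendsto.sub (Tendsto.const_mul _ (Tendsto.const_mul 2 ?_)) l0
      refine (Real.tendsto_arctan_atTop.mono_right nhdsWithin_le_nhds).comp ?_
      refine Tendsto.const_mul_atTop h0 ?_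
      exact tendsto_atTop_add_const_right _ _ tendsto_natCast_atTop_atTop
    have := le_of_tendsto' l2 fun n => (bd n).2
    linarith

/-- arbitrarily little mass outside of the bulk -/
theorem ex_bulk (ε : ℝ) (hε : 0 < ε) : ∃ ka : ℝ, 0 < ka ∧ ka ≤ 1 / 4 ∧ bb ka ≤ ε := by
  have h1 := bb_lim.eventually (ge_mem_nhds hε)
  have h2 : Ioc (0 : ℝ) (1 / 4) ∈ 𝓝[>] (0 : ℝ) := Ioc_mem_nhdsGT (by norm_num)
  obtain ⟨ka, h3, h4⟩ := (h1.and h2).exists
  exact ⟨ka, h4.1, h4.2, h3⟩

end Pool.Agent.Q218.AD2
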