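import Pool.Agent.Q218.AD2.Dens2

/-! The free density of states in dimension two is a probability density. -/

set_option autoImplicit false

open MeasureTheory Set Filter Topology

namespace Pool.Agent.Q218.AD2

theorem cover : AECover (volume.restrict U0) atTop fun n : ℕ => Bs (1 / ((n : ℝ) + 1)) where
  ae_eventually_mem := by
    filter_upwards [ae_restrict_mem U0_meas] with E hE
    obtain ⟨n, hn⟩ := ex_ka hE
    exact (eventually_ge_atTop n).mono hn
  measurableSet n := Bs_meas _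

theorem cap (n : ℕ) : (volume.restrict U0).restrict (Bs (1 / ((n : ℝ) + 1))) =
    volume.restrict (Bs (1 / ((n : ℝ) + 1))) := by
  rw [Measure.restrict_restrict (Bs_meas _), inter_eq_left.2 (Bs_U0 _ (inv1 n).1)]

theorem one_lim : Tendsto (fun n : ℕ => 1 / ((n : ℝ) + 1)) atTop (𝓝[>] 0) := by
  refine tendsto_nhdsWithin_iff.2 ⟨tendsto_one_div_add_atTop_nhds_zero_nat, ?_⟩
  exact Eventually.of_forall fun n => (inv1 n).1

theorem ev_good : ∀ᶠ n : ℕ in atTop, 1 / ((n : ℝ) + 1) ≤ 1 / 4 ∧ bb (1 / ((n : ℝ) + 1)) ≤ 1 := by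
  have h1 := (bb_lim.comp one_lim).eventually (ge_mem_nhds (zero_lt_one' ℝ))
  have h2 : Ioc (0 : ℝ) (1 / 4) ∈ 𝓝[>] (0 : ℝ) := Ioc_mem_nhdsGT (by norm_num)
  filter_upwards [h1, one_lim h2] with n h3 h4
  exact ⟨h4.2, h3⟩

theorem R0_intU : Integrable R0 (volume.restrict U0) := by
  refine cover.integrable_of_integral_bounded_of_nonneg_ae Real.pi (fun n => ?_)
    (Eventually.of_forall R0_nonneg) ?_
  · rw [IntegrableOn, cap]
    exact R0_ion _ (inv1 n).1 (inv1 n).2
  · filter_upwards [ev_good] with n hn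
    rw [cap]
    exact (mass_bulk _ (inv1 n).1 hn.1 hn.2).1

theorem R0_ind : U0.indicator R0 = R0 := by
  unfold R0
  rw [indicator_indicator, inter_self]

theorem R0_int : Integrable R0 := by
  have h1 : IntegrableOn R0 U0 := R0_intU
  rw [← R0_ind]
  exact h1.integrable_indicator U0_meas

/-- **the mass is one** -/
theorem R0_mass : ∫ E, R0 E = Real.pi := by
  have h0 : ∫ E, R0 E = ∫ E in U0, R0 E := by
    conv_lhs => rw [← R0_ind]
    exact integral_indicator U0_meas
  rw [h0]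
  have h1 := cover.integral_tendsto_of_countably_generated R0_intU
  simp only [cap] at h1
  apply le_antisymm
  · refine le_of_tendsto h1 ?_
    filter_upwards [ev_good] with n hn
    exact (mass_bulk _ (inv1 n).1 hn.1 hn.2).1
  · have h2 : Tendsto (fun n : ℕ => (1 - bb (1 / ((n : ℝ) + 1))) * Real.pi) atTop
        (𝓝 ((1 - 0) * Real.pi)) := ((bb_lim.comp one_lim).const_sub 1).mul_const _
    rw [sub_zero, one_mul] at h2
    refine le_of_tendsto_of_tendsto h2 h1 ?_
    filter_upwards [ev_good] with n hn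
    exact (mass_bulk _ (inv1 n).1 hn.1 hn.2).2

theorem bulk_small (ε : ℝ) (hε : 0 < ε) : ∃ ka : ℝ, 0 < ka ∧ ka ≤ 1 ∧
    1 - Real.pi⁻¹ * ∫ E in Bs ka, R0 E ≤ ε := by
  obtain ⟨ka, h1, h2, h3⟩ := ex_bulk (min ε 1) (by positivity)
  refine ⟨ka, h1, by linarith, ?_⟩
  have h4 := (mass_bulk ka h1 h2 (h3.trans (min_le_right _ _))).2
  have h5 : 1 - bb ka ≤ Real.pi⁻¹ * ∫ E in Bs ka, R0 E := by
    rw [le_inv_mul_iff₀ Real.pi_pos]
    linarith
  linarith [h3.trans (min_le_left ε 1)]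

theorem R1_le (E : ℝ) : R1 E ≤ R0 E := by
  by_cases hE : E ∈ U0
  · rw [R1_eq hE, R0_eq hE]
    obtain ⟨n, hn⟩ := ex_ka hE
    exact (Pool.Agent.TH794.QE.bvl_im _ (inv1 n).1 (inv1 n).2 E (hn n le_rfl)).2
  · unfold R0 R1
    rw [indicator_of_notMem hE, indicator_of_notMem hE]

end Pool.Agent.Q218.AD2
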