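import Pool.Agent.Q218.AD.Exp

/-! The limiting characteristic function, for a general density of states. -/

set_option autoImplicit false

open MeasureTheory Set Filter Topology

namespace Pool.Agent.Q218.AD2

open Pool.Agent.Q218.AD (exp_int exp_val)

/-- the characteristic function of the mixture -/
noncomputable def Psi (G0 G1 : ℝ → ℝ) (Q s : ℝ) : ℝ :=
  Real.pi⁻¹ * ∫ E, G0 E * Real.exp (-(2 * s * (G1 E / G0 E ^ 2) * Q))

section

variable {G0 G1 : ℝ → ℝ} (m0 : Measurable G0) (m1 : Measurable G1) (i0 : Integrable G0)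
  (n0 : ∀ E, 0 ≤ G0 E) (n1 : ∀ E, 0 ≤ G1 E) (hm : ∫ E, G0 E = Real.pi)

include m0 m1 in
theorem psi_meas (Q : ℝ) : Measurable (Psi G0 G1 Q) := by
  unfold Psi
  refine Measurable.const_mul ?_ _
  have h1 : StronglyMeasurable fun p : ℝ × ℝ =>
      G0 p.2 * Real.exp (-(2 * p.1 * (G1 p.2 / G0 p.2 ^ 2) * Q)) := by
    apply Measurable.stronglyMeasurable
    fun_prop
  exact (h1.integral_prod_right (ν := volume)).measurable

include m0 m1 i0 n0 n1 in
theorem psi_int (Q s : ℝ) (hQ : 0 ≤ Q) (hs : 0 ≤ s) :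
    Integrable fun E => G0 E * Real.exp (-(2 * s * (G1 E / G0 E ^ 2) * Q)) := by
  refine Integrable.mono' i0 ?_ (Filter.Eventually.of_forall fun E => ?_)
  · apply Measurable.aestronglyMeasurable
    fun_prop
  · rw [Real.norm_of_nonneg (mul_nonneg (n0 E) (Real.exp_pos _).le)]
    refine mul_le_of_le_one_right (n0 E) (Real.exp_le_one_iff.2 ?_)
    have := n1 E
    have : 0 ≤ 2 * s * (G1 E / G0 E ^ 2) * Q := by positivity
    linarith

include m0 m1 i0 n0 n1 hm in
theorem psi_bd (Q s : ℝ) (hQ : 0 ≤ Q) (hs : 0 ≤ s) : 0 ≤ Psi G0 G1 Q s ∧ Psi G0 G1 Q s ≤ 1 := by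
  have he : ∀ E, G0 E * Real.exp (-(2 * s * (G1 E / G0 E ^ 2) * Q)) ≤ G0 E := by
    intro E
    refine mul_le_of_le_one_right (n0 E) (Real.exp_le_one_iff.2 ?_)
    have := n1 E
    have : 0 ≤ 2 * s * (G1 E / G0 E ^ 2) * Q := by positivity
    linarith
  have he0 : ∀ E, 0 ≤ G0 E * Real.exp (-(2 * s * (G1 E / G0 E ^ 2) * Q)) := fun E =>
    mul_nonneg (n0 E) (Real.exp_pos _).le
  have h1 := integral_mono (psi_int m0 m1 i0 n0 n1 Q s hQ hs) i0 he
  have h2 : 0 ≤ ∫ E, G0 E * Real.exp (-(2 * s * (G1 E / G0 E ^ 2) * Q)) := integral_nonneg he0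
  unfold Psi
  have hp := Real.pi_pos
  refine ⟨by positivity, ?_⟩
  rw [inv_mul_le_iff₀ hp, mul_one, ← hm]
  exact h1

include m0 m1 i0 n0 n1 in
/-- the Laplace transform of the mixture -/
theorem psi_lap (Q k : ℝ) (hQ : 0 ≤ Q) (hk : 0 < k) :
    k * ∫ s in Ioi (0 : ℝ), Real.exp (-k * s) * Psi G0 G1 Q s =
      Real.pi⁻¹ * ∫ E, G0 E / (1 + G1 E / G0 E ^ 2 * (2 * Q / k)) := by
  have hD : ∀ E, 0 ≤ G1 E / G0 E ^ 2 := fun E => div_nonneg (n1 E) (sq_nonneg _)
  obtain ⟨F, hF⟩ : ∃ F : ℝ → ℝ → ℝ, F = fun s E => Real.exp (-k * s) *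
      (G0 E * Real.exp (-(2 * s * (G1 E / G0 E ^ 2) * Q))) := ⟨_, rfl⟩
  have hint : Integrable (Function.uncurry F)
      ((volume.restrict (Ioi (0 : ℝ))).prod (volume : Measure ℝ)) := by
    have h1 : Integrable (fun s : ℝ => Real.exp (-k * s)) (volume.restrict (Ioi (0 : ℝ))) :=
      exp_int k hk
    have h3 := h1.mul_prod i0
    refine Integrable.mono' h3 ?_ ?_
    · apply Measurable.aestronglyMeasurable
      rw [hF]
      simp only [Function.uncurry_def]
      fun_prop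
    · have h4 : ∀ᵐ p : ℝ × ℝ ∂((volume.restrict (Ioi (0 : ℝ))).prod (volume : Measure ℝ)),
          p.1 ∈ Ioi (0 : ℝ) := by
        have h5 : (volume.restrict (Ioi (0 : ℝ))).prod (volume : Measure ℝ) =
            ((volume : Measure ℝ).prod volume).restrict (Ioi (0 : ℝ) ×ˢ univ) := by
          rw [← Measure.prod_restrict, Measure.restrict_univ]
        rw [h5]
        filter_upwards [ae_restrict_mem (measurableSet_Ioi.prod MeasurableSet.univ)] with p hp
        exact hp.1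
      filter_upwards [h4] with p hp
      have hp0 : 0 < p.1 := hp
      rw [hF]
      simp only [Function.uncurry_def]
      rw [Real.norm_of_nonneg (mul_nonneg (Real.exp_pos _).le
        (mul_nonneg (n0 _) (Real.exp_pos _).le))]
      refine mul_le_mul_of_nonneg_left ?_ (Real.exp_pos _).le
      refine mul_le_of_le_one_right (n0 _) (Real.exp_le_one_iff.2 ?_)
      have := hD p.2
      have : 0 ≤ 2 * p.1 * (G1 p.2 / G0 p.2 ^ 2) * Q := by positivity
      linarith
  have hsw := integral_integral_swap hint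
  have e1 : ∀ s, Real.exp (-k * s) * Psi G0 G1 Q s = Real.pi⁻¹ * ∫ E, F s E := by
    intro s
    unfold Psi
    rw [hF]
    simp only
    rw [integral_const_mul]
    ring
  have e2 : ∀ E, ∫ s in Ioi (0 : ℝ), F s E =
      k⁻¹ * (G0 E / (1 + G1 E / G0 E ^ 2 * (2 * Q / k))) := by
    intro E
    rw [hF]
    simp only
    have h1 : ∀ s, Real.exp (-k * s) * (G0 E * Real.exp (-(2 * s * (G1 E / G0 E ^ 2) * Q))) =
        G0 E * Real.exp (-(k + 2 * (G1 E / G0 E ^ 2) * Q) * s) := by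
      intro s
      rw [mul_left_comm, ← Real.exp_add]
      congr 2
      ring
    simp only [h1]
    have h2 := hD E
    have h3 : 0 < k + 2 * (G1 E / G0 E ^ 2) * Q := by positivity
    rw [integral_const_mul, exp_val _ h3]
    have h4 : 0 < 1 + G1 E / G0 E ^ 2 * (2 * Q / k) := by positivity
    generalize G1 E / G0 E ^ 2 = D at *
    field_simp
  simp only [e1]
  rw [integral_const_mul, hsw]
  simp only [e2]
  rw [integral_const_mul, mul_left_comm, ← mul_assoc k, mul_inv_cancel₀ hk.ne', one_mul]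

include m0 m1 i0 n0 n1 in
/-- cutting off the critical energies -/
theorem edge_cut (Q : ℝ) (hQ : 0 ≤ Q) (U : Set ℝ) (hU : MeasurableSet U)
    (hm : ∫ E, G0 E = Real.pi) :
    |Real.pi⁻¹ * (∫ E, G0 E / (1 + G1 E / G0 E ^ 2 * Q)) -
      Real.pi⁻¹ * ∫ E in U, G0 E / (1 + G1 E / G0 E ^ 2 * Q)| ≤
    1 - Real.pi⁻¹ * ∫ E in U, G0 E := by
  have hD : ∀ E, 0 ≤ G1 E / G0 E ^ 2 := fun E => div_nonneg (n1 E) (sq_nonneg _)
  obtain ⟨f, hf⟩ : ∃ f : ℝ → ℝ, f = fun E => G0 E / (1 + G1 E / G0 E ^ 2 * Q) := ⟨_, rfl⟩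
  have hfm : Measurable f := by
    rw [hf]
    fun_prop
  have f0 : ∀ E, 0 ≤ f E := by
    intro E
    rw [hf]
    have := n0 E
    have := hD E
    positivity
  have f1 : ∀ E, f E ≤ G0 E := by
    intro E
    rw [hf]
    simp only
    have := hD E
    apply div_le_self (n0 E)
    have : 0 ≤ G1 E / G0 E ^ 2 * Q := by positivity
    linarith
  have fi : Integrable f := Integrable.mono' i0 hfm.aestronglyMeasurable
    (Filter.Eventually.of_forall fun E => by
      rw [Real.norm_of_nonneg (f0 E)]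
      exact f1 E)
  have e1 : (fun E => G0 E / (1 + G1 E / G0 E ^ 2 * Q)) = f := hf.symm
  rw [e1, ← mul_sub, abs_mul, abs_of_pos (inv_pos.2 Real.pi_pos)]
  have s1 := integral_add_compl hU fi
  have s2 := integral_add_compl hU i0
  have e2 : 1 - Real.pi⁻¹ * ∫ E in U, G0 E = Real.pi⁻¹ * ∫ E in Uᶜ, G0 E := by
    have : ∫ E in Uᶜ, G0 E = Real.pi - ∫ E in U, G0 E := by linarith
    rw [this, mul_sub, inv_mul_cancel₀ Real.pi_ne_zero]
  rw [e2]
  apply mul_le_mul_of_nonneg_left _ (inv_pos.2 Real.pi_pos).le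
  have e3 : (∫ E, f E) - ∫ E in U, f E = ∫ E in Uᶜ, f E := by linarith
  rw [e3, abs_of_nonneg (integral_nonneg fun E => f0 E)]
  exact integral_mono fi.integrableOn i0.integrableOn fun E => f1 E

end

end Pool.Agent.Q218.AD2
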